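import Mathlib
import Pool.Agent.Helper40.Beurling.Final

set_option autoImplicit false

open Pool.Agent.Helper40.Beurling in
/-- **Every value in `[0, M_{p,q}]` is the upper `s`-Beurling density of a spectrum of `μ_{p,q}`.**

For all integers `p > q ≥ 2` with `q ∣ p` the self-similar probability measure `μ_{p,q}` exists and
is unique, and for every real `d` with `0 ≤ d ≤ M_{p,q} = (2 (p-1)/(q-1))^s`, `s = log q / log p`,
there is a spectrum `Λ` of `μ_{p,q}`, consisting of nonnegative integers, with `D_s^+ (Λ) = d`.

Idea of the proof: write `n = ∑ a_i q^i` in base `q` and let `λ(n) = ∑ a_i p^i`. For a set `K` of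
indices that is closed under truncation of the digits, every index `n` outside `K` is moved: the
node `n 0 0 … 0` at level `n + 1` of the digit tree gets the label `q` instead of `0`. The result
is a spectrum for every `K` (each tail has at most one nonzero label), the moved frequencies are
so sparse that they do not contribute to the density, and `K_t = {n : radical inverse of n < t}`
gives a family of sets along which the density is continuous in `t`, from `0` to at least
`M_{p,q}`. The intermediate value theorem finishes the proof. -/
theorem Pool.Agent.Results.MP_5269d5_an.AllDensities.result :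
    ∀ p q : ℕ, 2 ≤ q → q ∣ p → q < p →
      (∃! μ : MeasureTheory.Measure ℝ, IsSelfSimilarMeasure p q μ) ∧
      ∀ μ : MeasureTheory.Measure ℝ, IsSelfSimilarMeasure p q μ →
        ∀ d : ℝ, 0 ≤ d →
          d ≤ (2 * ((p : ℝ) - 1) / ((q : ℝ) - 1)) ^ (Real.log q / Real.log p) →
          ∃ Λ : Set ℝ, Λ ⊆ Set.range (fun n : ℕ => (n : ℝ)) ∧ IsSpectrum μ Λ ∧
            upperBeurlingDensity (Real.log q / Real.log p) Λ = ENNReal.ofReal d := by
  intro p q hq hqp hlt
  exact main hq hqp hlt
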